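import Pool.Agent.Q203.CR.Trans

/-!
# Project CR: the exchange lemma
-/

set_option autoImplicit false

namespace Pool.Agent.Q203.CR

open Set Cardinal Pool.Agent.Q179.CR Pool.Agent.Q95.CR

universe u

open Classical in
/-- counting modulo 2 -/
noncomputable def cnt {V : Type u} (l : List (Sym2 V)) : Sym2 V → ZMod 2 := fun e => (l.count e : ZMod 2)

theorem cnt_append {V : Type u} (l m : List (Sym2 V)) : cnt (l ++ m) = cnt l + cnt m := by
  funext e
  simp [cnt]

theorem cnt_nil {V : Type u} : cnt ([] : List (Sym2 V)) = 0 := by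
  funext e
  simp [cnt]

theorem cnt_perm {V : Type u} {l m : List (Sym2 V)} (h : l.Perm m) : cnt l = cnt m := by
  classical
  funext e
  unfold cnt
  rw [h.count_eq]

theorem ind_cnt {V : Type u} (l : List V) : ind l = cnt (medges l) := rfl

theorem pedges_append {V : Type u} (x y : V) (P R : List V) :
    pedges x (P ++ y :: R) = pedges x (P ++ [y]) ++ pedges y R := by
  have : P ++ y :: R = (P ++ [y]) ++ R := by simp
  unfold pedges
  rw [this, parcs_append, List.map_append]
  simp

theorem pedges_map {V : Type u} (ψ : V → V) (x : V) (R : List V) :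
    pedges (ψ x) (R.map ψ) = (pedges x R).map (Sym2.map ψ) := by
  unfold pedges
  rw [parcs_map, List.map_map, List.map_map]
  rfl

theorem medges_split {V : Type u} (w v : V) (P Q : List V) :
    medges (w :: (P ++ v :: Q)) = pedges w (P ++ [v]) ++ pedges v (Q ++ [w]) := by
  unfold medges pedges
  rw [carcs_split, List.map_append]

theorem pedges_reverse {V : Type u} (x y : V) (Q : List V) :
    pedges y (Q.reverse ++ [x]) = (pedges x (Q ++ [y])).reverse := by
  unfold pedges
  rw [parcs_reverse, List.map_reverse, List.map_map]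
  congr 1
  refine List.map_congr_left fun p _ => ?_
  exact Sym2.eq_swap

/-- the first member in a set -/
theorem first_mem {V : Type u} (B : Set V) (R : List V) (h : ∃ y ∈ R, y ∈ B) :
    ∃ P y R', R = P ++ y :: R' ∧ (∀ v ∈ P, v ∉ B) ∧ y ∈ B := by
  induction R with
  | nil => simp at h
  | cons a R ih =>
    by_cases ha : a ∈ B
    · exact ⟨[], a, R, rfl, by simp, ha⟩
    · have h' : ∃ y ∈ R, y ∈ B := by
        obtain ⟨y, hy, hyB⟩ := h
        rcases List.mem_cons.1 hy with h1 | h1
        · exact absurd (h1 ▸ hyB) ha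
        · exact ⟨y, h1, hyB⟩
      obtain ⟨P, y, R', e, hP, hy⟩ := ih h'
      refine ⟨a :: P, y, R', by rw [e]; rfl, ?_, hy⟩
      intro v hv
      rcases List.mem_cons.1 hv with h1 | h1
      · rwa [h1]
      · exact hP v h1

section Ex

variable {V : Type u} (D : V → V → Prop) (B Gs : Set V) (ψ : V → V)
  (hfix : ∀ x ∈ Gs, x ∈ B → ψ x = x) (hmove : ∀ x ∈ Gs, x ∉ B → ψ x ∉ Gs)
  (hinj : ∀ x ∈ Gs, ∀ y ∈ Gs, ψ x = ψ y → x = y)

/-- the conclusion for a path -/
def Conc (F : Sym2 V → ZMod 2) (x : V) (R : List V) : Prop :=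
  ∃ Z : List (List V), Val D F Z ∧ tot Z = cnt (pedges x R) + cnt (pedges (ψ x) (R.map ψ)) ∧
    ∀ C ∈ Z, (∀ e ∈ medges C, e ∈ pedges x R ∨ e ∈ pedges (ψ x) (R.map ψ)) ∧
      ∃ v ∈ R, v ∉ B ∧ ψ v ∈ C

include hfix hmove hinj

/-- one segment -/
theorem seg (F : Sym2 V → ZMod 2) (x y : V) (P : List V) (hx : x ∈ B) (hy : y ∈ B) (hxG : x ∈ Gs)
    (hyG : y ∈ Gs) (hPG : ∀ v ∈ P, v ∈ Gs) (hPB : ∀ v ∈ P, v ∉ B) (hP : P ≠ [])
    (hn : (x :: (P ++ [y])).Nodup)
    (ha : ∀ p ∈ parcs x (P ++ [y]), Arc D F p.1 p.2 ∧ Arc D F (ψ p.2) (ψ p.1)) :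
    DC D F (x :: (P ++ y :: (P.map ψ).reverse)) ∧
    medges (x :: (P ++ y :: (P.map ψ).reverse))
      = pedges x (P ++ [y]) ++ (pedges (ψ x) ((P ++ [y]).map ψ)).reverse := by
  have hψx := hfix x hxG hx
  have hψy := hfix y hyG hy
  have hm : medges (x :: (P ++ y :: (P.map ψ).reverse))
      = pedges x (P ++ [y]) ++ (pedges (ψ x) ((P ++ [y]).map ψ)).reverse := by
    rw [medges_split, pedges_reverse, hψx, List.map_append, List.map_singleton, hψy]
  refine ⟨⟨?_, ?_, ?_⟩, hm⟩
  · have hPm : (P.map ψ).Nodup := by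
      refine List.Nodup.map_on (fun a ha b hb hab => hinj a (hPG a ha) b (hPG b hb) hab) ?_
      exact (List.nodup_append.1 (List.nodup_cons.1 hn).2).1
    have e : x :: (P ++ y :: (P.map ψ).reverse) = (x :: (P ++ [y])) ++ (P.map ψ).reverse := by simp
    rw [e, List.nodup_append]
    refine ⟨hn, List.nodup_reverse.2 hPm, ?_⟩
    intro a ha' b hb hab
    rw [List.mem_reverse, List.mem_map] at hb
    obtain ⟨c, hc, rfl⟩ := hb
    have h1 : ψ c ∉ Gs := hmove c (hPG c hc) (hPB c hc)
    apply h1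
    rw [← hab]
    simp only [List.mem_cons, List.mem_append, List.not_mem_nil, or_false] at ha'
    rcases ha' with h | h | h
    · rw [h]; exact hxG
    · exact hPG a h
    · rw [h]; exact hyG
  · have := List.length_pos_of_ne_nil hP
    simp only [List.length_cons, List.length_append, List.length_reverse, List.length_map]
    omega
  · intro p hp
    rw [carcs_split, List.mem_append, parcs_reverse, List.mem_reverse, List.mem_map] at hp
    rcases hp with h | ⟨q, hq, rfl⟩
    · exact (ha p h).1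
    · have e : parcs x (P.map ψ ++ [y]) = parcs (ψ x) ((P ++ [y]).map ψ) := by
        rw [hψx, List.map_append, List.map_singleton, hψy]
      rw [e, parcs_map, List.mem_map] at hq
      obtain ⟨r, hr, rfl⟩ := hq
      exact (ha r hr).2

/-- the induction step -/
theorem step (F : Sym2 V → ZMod 2) (x y : V) (P R : List V) (hx : x ∈ B) (hy : y ∈ B)
    (hPB : ∀ v ∈ P, v ∉ B) (hG : ∀ v ∈ x :: (P ++ y :: R), v ∈ Gs)
    (hn : (x :: (P ++ [y])).Nodup) (hE : (pedges x (P ++ y :: R)).Nodup)
    (hEB : ∀ e ∈ pedges x (P ++ y :: R), ∃ v ∈ e, v ∉ B)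
    (ha : ∀ p ∈ parcs x (P ++ y :: R), Arc D F p.1 p.2 ∧ Arc D F (ψ p.2) (ψ p.1))
    (hrest : ∀ F' : Sym2 V → ZMod 2, (∀ p ∈ parcs y R, Arc D F' p.1 p.2 ∧ Arc D F' (ψ p.2) (ψ p.1)) →
      Conc D B ψ F' y R) : Conc D B ψ F x (P ++ y :: R) := by
  have hxG : x ∈ Gs := hG x (by simp)
  have hyG : y ∈ Gs := hG y (by simp)
  have hPG : ∀ v ∈ P, v ∈ Gs := fun v hv => hG v (by simp [hv])
  have hRG : ∀ v ∈ y :: R, v ∈ Gs := fun v hv => hG v (by
    rcases List.mem_cons.1 hv with h | h
    · simp [h]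
    · simp [h])
  have hψy := hfix y hyG hy
  have hpar : parcs x (P ++ y :: R) = parcs x (P ++ [y]) ++ parcs y R := by
    have : P ++ y :: R = (P ++ [y]) ++ R := by simp
    rw [this, parcs_append]
    simp
  have hped := pedges_append x y P R
  have hP : P ≠ [] := by
    rintro rfl
    obtain ⟨v, hv, hvB⟩ := hEB s(x, y) (by simp [pedges, parcs])
    rcases Sym2.mem_iff.1 hv with h | h
    · exact hvB (h ▸ hx)
    · exact hvB (h ▸ hy)
  have ha1 : ∀ p ∈ parcs x (P ++ [y]), Arc D F p.1 p.2 ∧ Arc D F (ψ p.2) (ψ p.1) := fun p hp =>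
    ha p (by rw [hpar]; exact List.mem_append_left _ hp)
  obtain ⟨s1, s2⟩ := seg D B Gs ψ hfix hmove hinj F x y P hx hy hxG hyG hPG hPB hP hn ha1
  set Z1 := x :: (P ++ y :: (P.map ψ).reverse) with hZ1
  rw [hped] at hE hEB
  obtain ⟨n1, n2, n3⟩ := List.nodup_append.1 hE
  -- edges of the path inside Gs
  have hEG : ∀ e ∈ pedges x (P ++ [y]) ++ pedges y R, ∀ v ∈ e, v ∈ Gs := by
    intro e he v hv
    rw [← hped] at he
    obtain ⟨p, hp, rfl⟩ := List.mem_map.1 he
    obtain ⟨h1, h2⟩ := mem_parcs x _ p hp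
    rcases Sym2.mem_iff.1 hv with h | h
    · rw [h]; exact hG _ h1
    · rw [h]; exact hG _ (List.mem_cons_of_mem _ h2)
  have hoff : ∀ e ∈ pedges x (P ++ [y]) ++ pedges y R, ∀ e' ∈ pedges x (P ++ [y]) ++ pedges y R,
      Sym2.map ψ e ≠ e' := by
    intro e he e' he' h
    obtain ⟨v, hv, hvB⟩ := hEB e he
    have h1 : ψ v ∈ e' := by
      rw [← h]
      exact Sym2.mem_map.2 ⟨v, hv, rfl⟩
    exact hmove v (hEG e he v hv) hvB (hEG e' he' _ h1)
  have hinjE : ∀ e ∈ pedges x (P ++ [y]) ++ pedges y R, ∀ e' ∈ pedges x (P ++ [y]) ++ pedges y R,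
      Sym2.map ψ e = Sym2.map ψ e' → e = e' := by
    intro e he e' he' h
    have g1 := hEG e he
    have g2 := hEG e' he'
    revert h g1 g2
    refine Sym2.ind (fun a b => ?_) e
    refine Sym2.ind (fun c d => ?_) e'
    intro h g1 g2
    rw [Sym2.map_pair_eq, Sym2.map_pair_eq, Sym2.eq_iff] at h
    rw [Sym2.eq_iff]
    have ga := g1 a (Sym2.mem_mk_left _ _)
    have gb := g1 b (Sym2.mem_mk_right _ _)
    have gc := g2 c (Sym2.mem_mk_left _ _)
    have gd := g2 d (Sym2.mem_mk_right _ _)
    rcases h with ⟨h1, h2⟩ | ⟨h1, h2⟩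
    · exact Or.inl ⟨hinj _ ga _ gc h1, hinj _ gb _ gd h2⟩
    · exact Or.inr ⟨hinj _ ga _ gd h1, hinj _ gb _ gc h2⟩
  have hz1 : ∀ e ∈ pedges y R, ind Z1 e = 0 := by
    intro e he
    refine ind_eq_zero fun h => ?_
    rw [s2, List.mem_append, List.mem_reverse, pedges_map] at h
    rcases h with h | h
    · exact n3 _ h _ he rfl
    · obtain ⟨e', he', h'⟩ := List.mem_map.1 h
      exact hoff e' (List.mem_append_left _ he') e (List.mem_append_right _ he) h'
  have hz2 : ∀ e ∈ pedges y R, ind Z1 (Sym2.map ψ e) = 0 := by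
    intro e he
    refine ind_eq_zero fun h => ?_
    rw [s2, List.mem_append, List.mem_reverse, pedges_map] at h
    rcases h with h | h
    · exact hoff e (List.mem_append_right _ he) _ (List.mem_append_left _ h) rfl
    · obtain ⟨e', he', h'⟩ := List.mem_map.1 h
      have := hinjE e' (List.mem_append_left _ he') e (List.mem_append_right _ he) h'
      subst this
      exact n3 _ he' _ he rfl
  obtain ⟨Z, v1, v2, v3⟩ := hrest (F + ind Z1) (by
    intro p hp
    have hp' : s(p.1, p.2) ∈ pedges y R := List.mem_map.2 ⟨p, hp, rfl⟩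
    obtain ⟨b1, b2⟩ := ha p (by rw [hpar]; exact List.mem_append_right _ hp)
    refine ⟨(Arc_congr ?_).1 b1, (Arc_congr ?_).1 b2⟩
    · rw [Pi.add_apply, hz1 _ hp', add_zero]
    · have h5 := hz2 _ hp'
      rw [Sym2.map_pair_eq, Sym2.eq_swap] at h5
      rw [Pi.add_apply, h5, add_zero])
  have hmapR : pedges (ψ x) ((P ++ y :: R).map ψ)
      = pedges (ψ x) ((P ++ [y]).map ψ) ++ pedges (ψ y) (R.map ψ) := by
    rw [pedges_map, hped, List.map_append, pedges_map, pedges_map]
  refine ⟨Z1 :: Z, ⟨s1, v1⟩, ?_, ?_⟩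
  · rw [tot_cons, v2, ind_cnt, s2, cnt_append, hped, cnt_append, hmapR, cnt_append,
      cnt_perm (List.reverse_perm _)]
    abel
  · intro C hC
    rcases List.mem_cons.1 hC with h | h
    · subst h
      refine ⟨?_, ?_⟩
      · intro e he
        rw [s2, List.mem_append, List.mem_reverse] at he
        rw [hped, hmapR, List.mem_append, List.mem_append]
        tauto
      · obtain ⟨v, hv⟩ := List.exists_mem_of_ne_nil P hP
        refine ⟨v, by simp [hv], hPB v hv, ?_⟩
        rw [hZ1]
        simp only [List.mem_cons, List.mem_append, List.mem_reverse, List.mem_map]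
        exact Or.inr (Or.inr (Or.inr ⟨v, hv, rfl⟩))
    · obtain ⟨h1, v, hv, hvB, hvC⟩ := v3 C h
      refine ⟨?_, v, by simp [hv], hvB, hvC⟩
      intro e he
      rw [hped, hmapR, List.mem_append, List.mem_append]
      rcases h1 e he with h2 | h2
      · exact Or.inl (Or.inr h2)
      · exact Or.inr (Or.inr h2)

/-- paths -/
theorem path (n : ℕ) : ∀ (R : List V), R.length ≤ n → ∀ (x : V) (F : Sym2 V → ZMod 2), x ∈ B →
    (x :: R).Nodup → (∀ v ∈ x :: R, v ∈ Gs) → (pedges x R).Nodup →
    (x :: R).getLast (by simp) ∈ B → (∀ e ∈ pedges x R, ∃ v ∈ e, v ∉ B) →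
    (∀ p ∈ parcs x R, Arc D F p.1 p.2 ∧ Arc D F (ψ p.2) (ψ p.1)) → Conc D B ψ F x R := by
  induction n with
  | zero =>
    intro R hR x F _ _ _ _ _ _ _
    have : R = [] := List.length_eq_zero_iff.1 (by omega)
    subst this
    refine ⟨[], trivial, ?_, by simp⟩
    simp [pedges, parcs, cnt_nil]
  | succ n ih =>
    intro R hR x F hx hn hG hE hlast hEB ha
    rcases eq_or_ne R [] with rfl | hne
    · refine ⟨[], trivial, ?_, by simp⟩
      simp [pedges, parcs, cnt_nil]
    · have hl : R.getLast hne ∈ B := by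
        rwa [List.getLast_cons hne] at hlast
      obtain ⟨P, y, R', rfl, hP, hy⟩ := first_mem B R ⟨_, List.getLast_mem hne, hl⟩
      have hnR : (y :: R').Nodup := by
        have := (List.nodup_cons.1 hn).2
        exact (List.nodup_append.1 this).2.1
      refine step D B Gs ψ hfix hmove hinj F x y P R' hx hy hP hG ?_ hE hEB ha ?_
      · refine hn.sublist ?_
        refine List.Sublist.cons_cons _ (List.Sublist.append_left ?_ _)
        exact List.Sublist.cons_cons _ (List.nil_sublist _)
      · intro F' ha'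
        refine ih R' ?_ y F' hy hnR ?_ ?_ ?_ ?_ ha'
        · simp only [List.length_append, List.length_cons] at hR
          omega
        · intro v hv
          refine hG v ?_
          simp only [List.mem_cons, List.mem_append] at hv ⊢
          tauto
        · rw [pedges_append] at hE
          exact (List.nodup_append.1 hE).2.1
        · have e1 : (P ++ y :: R').getLast hne = (y :: R').getLast (by simp) :=
            List.getLast_append_of_ne_nil _ (by simp)
          rwa [e1] at hl
        · intro e he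
          refine hEB e ?_
          rw [pedges_append]
          exact List.mem_append_right _ he

end Ex

theorem t_EXCH : S_EXCH.{u} := by
  intro V D hT F B ψ G hG hback hfix hmove hinj hEB hab
  obtain ⟨a, haG, b, hbG, hab', haB, hbB⟩ := hab
  obtain ⟨m, hp1, hp2⟩ := t_ROT G a haG
  have hmem : ∀ v, v ∈ a :: m ↔ v ∈ G := fun v => hp1.mem_iff
  have hmed : (medges (a :: m)).Perm (medges G) := hp2.map _
  have hnG : (a :: m).Nodup := hp1.nodup_iff.2 hG.1
  have hbm : b ∈ m := by
    have := (hmem b).2 hbG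
    rcases List.mem_cons.1 this with h | h
    · exact absurd h.symm hab'
    · exact h
  obtain ⟨P, y, m', hm, hP, hy⟩ := first_mem B m ⟨b, hbm, hbB⟩
  have hc0 : carcs (a :: m) = parcs a (P ++ y :: (m' ++ [a])) := by
    change parcs a (m ++ [a]) = _
    rw [hm]
    simp
  have hme0 : medges (a :: m) = pedges a (P ++ y :: (m' ++ [a])) := by
    unfold medges pedges
    rw [hc0]
  have hGset : ∀ v ∈ a :: (P ++ y :: (m' ++ [a])), v ∈ {v | v ∈ G} := by
    intro v hv
    refine (hmem v).1 ?_
    rw [hm]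
    simp only [List.mem_cons, List.mem_append, List.not_mem_nil, or_false] at hv ⊢
    tauto
  have hEn : (pedges a (P ++ y :: (m' ++ [a]))).Nodup := by
    rw [← hme0]
    exact (t_NODUP _ hnG (by rw [hp1.length_eq]; exact hG.2.1)).1
  have hEB' : ∀ e ∈ pedges a (P ++ y :: (m' ++ [a])), ∃ v ∈ e, v ∉ B := by
    intro e he
    rw [← hme0] at he
    exact hEB e (hmed.mem_iff.1 he)
  have hA : ∀ p ∈ parcs a (P ++ y :: (m' ++ [a])), Arc D F p.1 p.2 ∧ Arc D F (ψ p.2) (ψ p.1) := by
    intro p hp
    rw [← hc0] at hp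
    have := hp2.mem_iff.1 hp
    exact ⟨hG.2.2 p this, hback p this⟩
  have hcon : Conc D B ψ F a (P ++ y :: (m' ++ [a])) := by
    refine step D B {v | v ∈ G} ψ hfix hmove hinj F a y P (m' ++ [a]) haB hy hP hGset ?_ hEn hEB' hA ?_
    · rw [hm] at hnG
      refine hnG.sublist ?_
      refine List.Sublist.cons_cons _ (List.Sublist.append_left ?_ _)
      exact List.Sublist.cons_cons _ (List.nil_sublist _)
    · intro F' ha'
      refine path D B {v | v ∈ G} ψ hfix hmove hinj (m' ++ [a]).length (m' ++ [a]) le_rfl y F' hy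
        ?_ ?_ ?_ ?_ ?_ ha'
      · rw [hm] at hnG
        have h1 : (y :: (m' ++ [a])).Perm (a :: (y :: m')) := by
          have : y :: (m' ++ [a]) = (y :: m') ++ [a] := by simp
          rw [this]
          exact List.perm_append_singleton _ _
        rw [h1.nodup_iff]
        refine hnG.sublist ?_
        exact List.Sublist.cons_cons _ (List.sublist_append_right _ _)
      · intro v hv
        refine hGset v ?_
        simp only [List.mem_cons, List.mem_append] at hv ⊢
        tauto
      · rw [pedges_append] at hEn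
        exact (List.nodup_append.1 hEn).2.1
      · have : (y :: (m' ++ [a])).getLast (by simp) = a := by simp
        rw [this]
        exact haB
      · intro e he
        refine hEB' e ?_
        rw [pedges_append]
        exact List.mem_append_right _ he
  obtain ⟨Z, v1, v2, v3⟩ := hcon
  have hmapP : (medges (G.map ψ)).Perm (pedges (ψ a) ((P ++ y :: (m' ++ [a])).map ψ)) := by
    rw [medges_map, pedges_map, ← hme0]
    exact (hmed.map _).symm
  refine ⟨Z, v1, ?_, ?_⟩
  · rw [v2, ind_cnt, ind_cnt, ← hme0, cnt_perm hmed, cnt_perm hmapP]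
  · intro C hC
    obtain ⟨h1, v, hv, hvB, hvC⟩ := v3 C hC
    refine ⟨?_, v, ?_, hvB, hvC⟩
    · intro e he
      rcases h1 e he with h | h
      · left
        rw [← hme0] at h
        exact hmed.mem_iff.1 h
      · right
        exact hmapP.mem_iff.2 h
    · exact hGset v (List.mem_cons_of_mem _ hv)

end Pool.Agent.Q203.CR
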