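import Pool.Agent.Q203.CR.Exch

/-!
# Project CR: the finite lemma
-/

set_option autoImplicit false

namespace Pool.Agent.Q203.CR

open Set Cardinal Pool.Agent.Q179.CR Pool.Agent.Q95.CR

universe u

theorem arc_total {V : Type u} {D : V → V → Prop} (hT : IsTour D) (F : Sym2 V → ZMod 2) {a b : V}
    (hab : a ≠ b) : Arc D F a b ∨ Arc D F b a := by
  unfold Arc
  rw [Sym2.eq_swap (a := b) (b := a)]
  have h1 := hT.2 a b hab
  by_cases h0 : F s(a, b) = 0
  · by_cases hd : D a b
    · left; exact ⟨fun _ => hd, fun h => absurd h0 h⟩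
    · right
      refine ⟨fun _ => ?_, fun h => absurd h0 h⟩
      by_contra h2
      exact hd (h1.2 h2)
  · by_cases hd : D a b
    · right; exact ⟨fun h => absurd h h0, fun _ => hd⟩
    · left
      refine ⟨fun h => absurd h h0, fun _ => ?_⟩
      by_contra h2
      exact hd (h1.2 h2)

section

variable {V : Type u} {D : V → V → Prop} {Y : Set V} {X : ℕ → Set V} {k : ℕ} {K : Set V}

/-- two cycles one after the other -/
theorem red_two {H : List (List V)} {G G1 G2 : List V} (hH : Val D 0 H)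
    (hHok : ∀ C ∈ H, ∀ e ∈ medges C, ok Y X k e) (h1 : DC D (tot H) G1)
    (h2 : DC D (tot H + ind G1) G2) (hind : ind G1 + ind G2 = ind G)
    (hok1 : ∀ e ∈ medges G1, okK Y X k K e)
    (r1 : Red D Y X k K H G1)
    (r2 : Val D 0 (H ++ [G1]) → (∀ C ∈ H ++ [G1], ∀ e ∈ medges C, ok Y X k e) →
      DC D (tot (H ++ [G1])) G2 → Red D Y X k K (H ++ [G1]) G2) : Red D Y X k K H G := by
  have e1 : tot (H ++ [G1]) = tot H + ind G1 := by
    rw [tot_append, tot_cons, tot_nil, add_zero]
  obtain ⟨T2, a1, a2, a3⟩ := r2 (by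
    rw [Val_append, zero_add]
    exact ⟨hH, h1, trivial⟩) (by
    intro C hC e he
    rcases List.mem_append.1 hC with h | h
    · exact hHok C h e he
    · rw [List.mem_singleton.1 h] at he
      exact (hok1 e he).1) (by rw [e1]; exact h2)
  obtain ⟨T1, b1, b2, b3⟩ := r1
  refine ⟨T1 ++ T2, ?_, ?_, ?_⟩
  · rw [Val_append, b2]
    rw [e1] at a1
    exact ⟨b1, a1⟩
  · rw [tot_append, a2, b2, hind]
  · intro C hC
    rcases List.mem_append.1 hC with h | h
    · exact b3 C h
    · exact a3 C h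

end

theorem t_FIN (hcopy : S_COPY.{u}) : S_FIN.{u} := by
  intro V D hT Y X k K hK hR i
  induction i using Nat.strong_induction_on with
  | _ i IH =>
  intro hik
  -- induction on the length
  suffices hmain : ∀ n : ℕ, ∀ (H : List (List V)) (G : List V), G.length = n → Val D 0 H →
      (∀ C ∈ H, ∀ e ∈ medges C, ok Y X k e) → DC D (tot H) G → (∀ e ∈ medges G, okK Y X k K e) →
      (∃ w ∈ G, w ∉ K ∧ ∀ j, i ≤ j → j < k → w ∉ X j) → Red D Y X k K H G by
    intro H G
    exact hmain G.length H G rfl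
  intro n
  induction n using Nat.strong_induction_on with
  | _ n IHn =>
  intro H G hGn hH hHok hG hGok hw
  rcases Nat.lt_or_ge 3 n with hn | hn
  swap
  · have h3 : G.length = 3 := by
      have := hG.2.1
      omega
    refine ⟨[G], ⟨hG, trivial⟩, by simp, ?_⟩
    intro C hC
    rw [List.mem_singleton.1 hC]
    exact ⟨h3, hGok⟩
  obtain ⟨w, hwG, hwK, hwX⟩ := hw
  obtain ⟨m, hp1, hp2⟩ := t_ROT G w hwG
  have hmed : (medges (w :: m)).Perm (medges G) := hp2.map _
  have hG' : DC D (tot H) (w :: m) :=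
    ⟨hp1.nodup_iff.2 hG.1, by rw [hp1.length_eq]; exact hG.2.1, fun p hp => hG.2.2 p (hp2.mem_iff.1 hp)⟩
  have hind : ind (w :: m) = ind G := by
    rw [ind_cnt, ind_cnt, cnt_perm hmed]
  have hlen : m.length + 1 = n := by
    rw [← hGn, ← hp1.length_eq]
    rfl
  have hmemY : ∀ v ∈ G, v ∈ Y := by
    intro v hv
    obtain ⟨e, he, hve⟩ := (t_NODUP G hG.1 hG.2.1).2.2.2 v hv
    exact (hGok e he).1.1 v hve
  by_cases hA : ∃ (P : List V) (v : V) (Q : List V), P ≠ [] ∧ Q ≠ [] ∧ m = P ++ v :: Q ∧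
      okK Y X k K s(w, v)
  · obtain ⟨P, v, Q, hP, hQ, rfl, hok⟩ := hA
    obtain ⟨s1, s2, s3, s4, s5⟩ := t_SPLIT D hT (tot H) w v P Q hP hQ hG'
    have hPl := List.length_pos_of_ne_nil hP
    have hQl := List.length_pos_of_ne_nil hQ
    have hwv : w ≠ v := by
      intro h
      have := (List.nodup_cons.1 hG'.1).1
      exact this (by rw [h]; simp)
    have ok1 : ∀ e ∈ medges (w :: (P ++ [v])), okK Y X k K e := by
      intro e he
      rcases s2 e he with h | h
      · exact hGok e (hmed.mem_iff.1 h)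
      · rw [h]; exact hok
    have ok2 : ∀ e ∈ medges (w :: v :: Q), okK Y X k K e := by
      intro e he
      rcases s3 e he with h | h
      · exact hGok e (hmed.mem_iff.1 h)
      · rw [h]; exact hok
    simp only [List.length_append, List.length_cons] at hlen
    have l1 : (w :: (P ++ [v])).length < n := by
      simp only [List.length_append, List.length_cons, List.length_nil]
      omega
    have l2 : (w :: v :: Q).length < n := by
      simp only [List.length_cons]
      omega
    rcases arc_total hT (tot H) hwv with h | h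
    · obtain ⟨t1, t2⟩ := s5 h
      refine red_two hH hHok t1 t2 (by rw [add_comm, s1, hind]) ok2 ?_ ?_
      · exact IHn _ l2 H _ rfl hH hHok t1 ok2 ⟨w, by simp, hwK, hwX⟩
      · intro v1 v2 v3
        exact IHn _ l1 _ _ rfl v1 v2 v3 ok1 ⟨w, by simp, hwK, hwX⟩
    · obtain ⟨t1, t2⟩ := s4 h
      refine red_two hH hHok t1 t2 (by rw [s1, hind]) ok1 ?_ ?_
      · exact IHn _ l1 H _ rfl hH hHok t1 ok1 ⟨w, by simp, hwK, hwX⟩
      · intro v1 v2 v3
        exact IHn _ l2 _ _ rfl v1 v2 v3 ok2 ⟨w, by simp, hwK, hwX⟩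
  · -- take the second member
    obtain ⟨x1, x2, x3, m', rfl⟩ : ∃ x1 x2 x3 m', m = x1 :: x2 :: x3 :: m' := by
      match m, hlen with
      | [], h => simp at h; omega
      | [_], h => simp at h; omega
      | [_, _], h => simp at h; omega
      | x1 :: x2 :: x3 :: m', _ => exact ⟨x1, x2, x3, m', rfl⟩
    have hnok : ¬ okK Y X k K s(w, x2) := by
      intro h
      exact hA ⟨[x1], x2, x3 :: m', by simp, by simp, by simp, h⟩
    have hx2G : x2 ∈ G := hp1.mem_iff.1 (by simp)
    have hwY := hmemY w hwG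
    have hxY := hmemY x2 hx2G
    have hj : ∃ j < k, w ∈ X j ∧ x2 ∈ X j := by
      by_contra hcon
      apply hnok
      refine ⟨⟨?_, ?_⟩, ⟨w, Sym2.mem_mk_left _ _, hwK⟩⟩
      · intro v hv
        rcases Sym2.mem_iff.1 hv with h | h
        · rw [h]; exact hwY
        · rw [h]; exact hxY
      · intro j hjk
        by_cases h1 : w ∈ X j
        · refine ⟨x2, Sym2.mem_mk_right _ _, fun h2 => hcon ⟨j, hjk, h1, h2⟩⟩
        · exact ⟨w, Sym2.mem_mk_left _ _, h1⟩
    obtain ⟨j, hjk, hwj, hxj⟩ := hj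
    have hji : j < i := by
      by_contra h
      exact hwX j (not_lt.1 h) hjk hwj
    have hwx : w ≠ x2 := by
      intro h
      have := (List.nodup_cons.1 hG'.1).1
      exact this (by rw [h]; simp)
    exact hcopy D hT Y X k K j hK hR hjk (IH j hji hjk.le) H G hH hHok hG hGok
      ⟨w, hwG, x2, hx2G, hwx, hwj, hxj⟩

end Pool.Agent.Q203.CR
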