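import Pool.Agent.Q95.CR.Rot

/-!
# Project CR: splitting, transport and undoing
-/

set_option autoImplicit false

namespace Pool.Agent.Q203.CR

open Set Cardinal Pool.Agent.Q179.CR Pool.Agent.Q95.CR

universe u

/-- an arc which is turned over -/
theorem arc_flip {V : Type u} {D : V → V → Prop} {F F' : Sym2 V → ZMod 2} {a b : V}
    (h : Arc D F a b) (h' : F' s(a, b) = F s(a, b) + 1) : Arc D F' b a := by
  unfold Arc at *
  rw [Sym2.eq_swap (a := b) (b := a), h']
  have h2 : F s(a, b) = 0 ∨ F s(a, b) = 1 := by
    generalize F s(a, b) = z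
    revert z; decide
  rcases h2 with h2 | h2
  · rw [h2]
    refine ⟨fun h3 => absurd h3 (by decide), fun _ => h.1 h2⟩
  · rw [h2]
    refine ⟨fun _ => h.2 (by rw [h2]; decide), fun h3 => absurd (by decide) h3⟩

theorem arc_flip_iff {V : Type u} {D : V → V → Prop} {F F' : Sym2 V → ZMod 2} {a b : V}
    (h' : F' s(a, b) = F s(a, b) + 1) : Arc D F' b a ↔ Arc D F a b := by
  refine ⟨fun h => ?_, fun h => arc_flip h h'⟩
  refine arc_flip h ?_
  rw [Sym2.eq_swap (a := b) (b := a), h', add_assoc]
  have : (1 : ZMod 2) + 1 = 0 := by decide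
  rw [this, add_zero]

theorem ind_nodup {V : Type u} {l : List V} (hl : l.Nodup) (h3 : 3 ≤ l.length) {e : Sym2 V}
    (he : e ∈ medges l) : ind l e = 1 := by
  classical
  unfold ind
  rw [List.count_eq_one_of_mem (t_NODUP l hl h3).1 he]
  rfl

theorem carcs_split {V : Type u} (w v : V) (P Q : List V) :
    carcs (w :: (P ++ v :: Q)) = parcs w (P ++ [v]) ++ parcs v (Q ++ [w]) := by
  change parcs w ((P ++ v :: Q) ++ [w]) = _
  have : (P ++ v :: Q) ++ [w] = (P ++ [v]) ++ (Q ++ [w]) := by simp
  rw [this, parcs_append]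
  simp

theorem carcs_left {V : Type u} (w v : V) (P : List V) :
    carcs (w :: (P ++ [v])) = parcs w (P ++ [v]) ++ [(v, w)] := by
  change parcs w ((P ++ [v]) ++ [w]) = _
  rw [parcs_append]
  simp [parcs]

theorem carcs_right {V : Type u} (w v : V) (Q : List V) :
    carcs (w :: v :: Q) = (w, v) :: parcs v (Q ++ [w]) := rfl

theorem t_SPLIT : S_SPLIT.{u} := by
  classical
  intro V D hT F w v P Q hP hQ hG
  obtain ⟨hn, h3, ha⟩ := hG
  have c0 := carcs_split w v P Q
  have c1 := carcs_left w v P
  have c2 := carcs_right w v Q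
  set p1 := parcs w (P ++ [v]) with hp1
  set p2 := parcs v (Q ++ [w]) with hp2
  set f : V × V → Sym2 V := fun p => s(p.1, p.2) with hf
  have m0 : medges (w :: (P ++ v :: Q)) = p1.map f ++ p2.map f := by
    unfold medges
    rw [c0, List.map_append]
  have m1 : medges (w :: (P ++ [v])) = p1.map f ++ [s(v, w)] := by
    unfold medges
    rw [c1, List.map_append]
    rfl
  have m2 : medges (w :: v :: Q) = s(w, v) :: p2.map f := by
    unfold medges
    rw [c2, List.map_cons]
  have hn1 : (w :: (P ++ [v])).Nodup := by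
    refine hn.sublist ?_
    refine List.Sublist.cons_cons _ (List.Sublist.append_left ?_ _)
    exact List.Sublist.cons_cons _ (List.nil_sublist _)
  have hn2 : (w :: v :: Q).Nodup := by
    refine hn.sublist ?_
    exact List.Sublist.cons_cons _ (List.sublist_append_right _ _)
  have hl1 : 3 ≤ (w :: (P ++ [v])).length := by
    have := List.length_pos_of_ne_nil hP
    simp only [List.length_cons, List.length_append, List.length_nil]
    omega
  have hl2 : 3 ≤ (w :: v :: Q).length := by
    have := List.length_pos_of_ne_nil hQ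
    simp only [List.length_cons]
    omega
  have d0 := (t_NODUP _ hn h3).1
  have d1 := (t_NODUP _ hn1 hl1).1
  have d2 := (t_NODUP _ hn2 hl2).1
  rw [m0] at d0
  rw [m1] at d1
  rw [m2] at d2
  have e1 : s(v, w) ∉ p1.map f := by
    intro h
    exact (List.nodup_append.1 d1).2.2 _ h _ (List.mem_singleton_self _) rfl
  have e2 : s(w, v) ∉ p2.map f := (List.nodup_cons.1 d2).1
  have e0 : ∀ e ∈ p1.map f, e ∉ p2.map f := fun e h1 h2 =>
    (List.nodup_append.1 d0).2.2 _ h1 _ h2 rfl
  have sw : s(v, w) = s(w, v) := Sym2.eq_swap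
  have i1 : ∀ e ∈ medges (w :: (P ++ [v])), ind (w :: (P ++ [v])) e = 1 := fun e he =>
    ind_nodup hn1 hl1 he
  have i2 : ∀ e ∈ medges (w :: v :: Q), ind (w :: v :: Q) e = 1 := fun e he =>
    ind_nodup hn2 hl2 he
  refine ⟨?_, ?_, ?_, ?_, ?_⟩
  · funext e
    simp only [Pi.add_apply]
    unfold ind
    have hc : List.count e (p1.map f ++ [s(v, w)]) + List.count e (s(w, v) :: p2.map f)
        = List.count e (p1.map f ++ p2.map f) + 2 * List.count e [s(w, v)] := by
      rw [sw, List.count_append, List.count_append, ← List.singleton_append (l := p2.map f),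
        List.count_append]
      ring
    rw [m0, m1, m2, ← Nat.cast_add, hc, Nat.cast_add, Nat.cast_mul]
    have h2 : ((2 : ℕ) : ZMod 2) = 0 := by decide
    rw [h2, zero_mul, add_zero]
  · intro e he
    rw [m1] at he
    rw [m0]
    rcases List.mem_append.1 he with h | h
    · exact Or.inl (List.mem_append_left _ h)
    · right
      rw [List.mem_singleton.1 h, sw]
  · intro e he
    rw [m2] at he
    rw [m0]
    rcases List.mem_cons.1 he with h | h
    · exact Or.inr h
    · exact Or.inl (List.mem_append_right _ h)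
  · intro hvw
    refine ⟨⟨hn1, hl1, ?_⟩, ⟨hn2, hl2, ?_⟩⟩
    · intro p hp
      rw [c1] at hp
      rcases List.mem_append.1 hp with h | h
      · exact ha p (by rw [c0]; exact List.mem_append_left _ h)
      · rw [List.mem_singleton.1 h]
        exact hvw
    · intro p hp
      rw [c2] at hp
      rcases List.mem_cons.1 hp with h | h
      · rw [h]
        refine arc_flip hvw ?_
        rw [Pi.add_apply, i1 _ (by rw [m1]; simp)]
      · refine (Arc_congr ?_).1 (ha p (by rw [c0]; exact List.mem_append_right _ h))
        rw [Pi.add_apply, ind_eq_zero, add_zero]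
        rw [m1]
        intro h5
        have h6 : s(p.1, p.2) ∈ p2.map f := List.mem_map.2 ⟨p, h, rfl⟩
        rcases List.mem_append.1 h5 with h7 | h7
        · exact e0 _ h7 h6
        · rw [List.mem_singleton.1 h7, sw] at h6
          exact e2 h6
  · intro hwv
    refine ⟨⟨hn2, hl2, ?_⟩, ⟨hn1, hl1, ?_⟩⟩
    · intro p hp
      rw [c2] at hp
      rcases List.mem_cons.1 hp with h | h
      · rw [h]
        exact hwv
      · exact ha p (by rw [c0]; exact List.mem_append_right _ h)
    · intro p hp
      rw [c1] at hp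
      rcases List.mem_append.1 hp with h | h
      · refine (Arc_congr ?_).1 (ha p (by rw [c0]; exact List.mem_append_left _ h))
        rw [Pi.add_apply, ind_eq_zero, add_zero]
        rw [m2]
        intro h5
        have h6 : s(p.1, p.2) ∈ p1.map f := List.mem_map.2 ⟨p, h, rfl⟩
        rcases List.mem_cons.1 h5 with h7 | h7
        · rw [h7, ← sw] at h6
          exact e1 h6
        · exact e0 _ h6 h7
      · rw [List.mem_singleton.1 h]
        refine arc_flip hwv ?_
        rw [Pi.add_apply, i2 _ (by rw [m2]; simp)]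

end Pool.Agent.Q203.CR
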