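import Pool.Agent.Q203.CR.Split

/-!
# Project CR: transport and undoing
-/

set_option autoImplicit false

namespace Pool.Agent.Q203.CR

open Set Cardinal Pool.Agent.Q179.CR Pool.Agent.Q95.CR

universe u

theorem parcs_map {V : Type u} (ψ : V → V) (a : V) (l : List V) :
    parcs (ψ a) (l.map ψ) = (parcs a l).map (fun p => (ψ p.1, ψ p.2)) := by
  induction l generalizing a with
  | nil => rfl
  | cons b l ih => simp [parcs, ih]

theorem carcs_map {V : Type u} (ψ : V → V) (l : List V) :
    carcs (l.map ψ) = (carcs l).map (fun p => (ψ p.1, ψ p.2)) := by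
  cases l with
  | nil => rfl
  | cons a l =>
    change parcs (ψ a) (l.map ψ ++ [ψ a]) = (parcs a (l ++ [a])).map (fun p => (ψ p.1, ψ p.2))
    rw [← parcs_map]
    simp

theorem medges_map {V : Type u} (ψ : V → V) (l : List V) :
    medges (l.map ψ) = (medges l).map (Sym2.map ψ) := by
  unfold medges
  rw [carcs_map, List.map_map, List.map_map]
  rfl

theorem mem_parcs {V : Type u} (a : V) (l : List V) (p : V × V) (hp : p ∈ parcs a l) :
    p.1 ∈ a :: l ∧ p.2 ∈ l := by
  induction l generalizing a with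
  | nil => simp [parcs] at hp
  | cons b l ih =>
    simp only [parcs, List.mem_cons] at hp
    rcases hp with h | h
    · rw [h]; simp
    · obtain ⟨h1, h2⟩ := ih b h
      exact ⟨List.mem_cons_of_mem _ h1, List.mem_cons_of_mem _ h2⟩

theorem mem_carcs {V : Type u} (l : List V) (p : V × V) (hp : p ∈ carcs l) :
    p.1 ∈ l ∧ p.2 ∈ l := by
  cases l with
  | nil => simp [carcs] at hp
  | cons a l =>
    obtain ⟨h1, h2⟩ := mem_parcs a (l ++ [a]) p hp
    constructor
    · simp only [List.mem_cons, List.mem_append, List.not_mem_nil, or_false] at h1 ⊢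
      tauto
    · simp only [List.mem_cons, List.mem_append, List.not_mem_nil, or_false] at h2 ⊢
      tauto

theorem mem_medges {V : Type u} (l : List V) (e : Sym2 V) (he : e ∈ medges l) (v : V) (hv : v ∈ e) :
    v ∈ l := by
  obtain ⟨p, hp, rfl⟩ := List.mem_map.1 he
  have := mem_carcs l p hp
  rcases Sym2.mem_iff.1 hv with h | h
  · rw [h]; exact this.1
  · rw [h]; exact this.2

theorem count_trans {V : Type u} [DecidableEq (Sym2 V)] (S : Set V) (ψ : V → V) (hψ : InjOn ψ S)
    (E : List (Sym2 V)) (hE : ∀ e ∈ E, ∀ v ∈ e, v ∈ S) (x y : V) (hx : x ∈ S) (hy : y ∈ S) :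
    (E.map (Sym2.map ψ)).count s(ψ x, ψ y) = E.count s(x, y) := by
  induction E with
  | nil => rfl
  | cons e E ih =>
    rw [List.map_cons, List.count_cons, List.count_cons, ih fun e' he' => hE e' (List.mem_cons_of_mem _ he')]
    have hiff : (Sym2.map ψ e == s(ψ x, ψ y)) = (e == s(x, y)) := by
      rw [Bool.eq_iff_iff, beq_iff_eq, beq_iff_eq]
      constructor
      · intro h
        have he := hE e (List.mem_cons_self ..)
        revert h he
        refine Sym2.ind (fun a b => ?_) e
        intro h he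
        have ha : a ∈ S := he a (Sym2.mem_mk_left _ _)
        have hb : b ∈ S := he b (Sym2.mem_mk_right _ _)
        rw [Sym2.map_pair_eq, Sym2.eq_iff] at h
        rw [Sym2.eq_iff]
        rcases h with ⟨h1, h2⟩ | ⟨h1, h2⟩
        · exact Or.inl ⟨hψ ha hx h1, hψ hb hy h2⟩
        · exact Or.inr ⟨hψ ha hy h1, hψ hb hx h2⟩
      · intro h
        rw [h, Sym2.map_pair_eq]
    rw [hiff]

theorem ind_trans {V : Type u} (S : Set V) (ψ : V → V) (hψ : InjOn ψ S) (C : List V)
    (hC : ∀ v ∈ C, v ∈ S) (x y : V) (hx : x ∈ S) (hy : y ∈ S) :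
    ind (C.map ψ) s(ψ x, ψ y) = ind C s(x, y) := by
  classical
  unfold ind
  rw [medges_map, count_trans S ψ hψ _ (fun e he v hv => hC v (mem_medges C e he v hv)) x y hx hy]

theorem z2 (z : ZMod 2) : z = 0 ∨ z = 1 := by revert z; decide

theorem t_TRANS : S_TRANS.{u} := by
  intro V D S A ψ hψ H
  induction H with
  | nil =>
    intro _ _ F₁ F₂ h
    refine ⟨fun _ => trivial, ?_, ?_⟩
    · simpa using h
    · intro x hx y hy
      rfl
  | cons C H ih =>
    intro hS hA F₁ F₂ h
    have hSC : ∀ v ∈ C, v ∈ S := hS C (List.mem_cons_self ..)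
    have hAC := hA C (List.mem_cons_self ..)
    have hstep : ∀ x ∈ S, ∀ y ∈ S, x ∉ A ∨ y ∉ A →
        (Arc D (F₂ + ind (C.map ψ)) (ψ x) (ψ y) ↔ Arc D (F₁ + ind C) x y) := by
      intro x hx y hy hxy
      have e1 := ind_trans S ψ hψ C hSC x y hx hy
      rcases z2 (ind C s(x, y)) with h0 | h0
      · rw [h0] at e1
        have a1 : Arc D (F₂ + ind (C.map ψ)) (ψ x) (ψ y) ↔ Arc D F₂ (ψ x) (ψ y) :=
          Arc_congr (by rw [Pi.add_apply, e1, add_zero])
        have a2 : Arc D (F₁ + ind C) x y ↔ Arc D F₁ x y :=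
          Arc_congr (by rw [Pi.add_apply, h0, add_zero])
        rw [a1, a2, h x hx y hy hxy]
      · rw [h0] at e1
        have a1 : Arc D (F₂ + ind (C.map ψ)) (ψ x) (ψ y) ↔ Arc D F₂ (ψ y) (ψ x) :=
          arc_flip_iff (by rw [Pi.add_apply, Sym2.eq_swap, e1])
        have a2 : Arc D (F₁ + ind C) x y ↔ Arc D F₁ y x :=
          arc_flip_iff (by rw [Pi.add_apply, Sym2.eq_swap, h0])
        rw [a1, a2, h y hy x hx hxy.symm]
    obtain ⟨i1, i2, i3⟩ := ih (fun C' hC' => hS C' (List.mem_cons_of_mem _ hC'))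
      (fun C' hC' => hA C' (List.mem_cons_of_mem _ hC')) (F₁ + ind C) (F₂ + ind (C.map ψ)) hstep
    refine ⟨?_, ?_, ?_⟩
    · rintro ⟨⟨hn, h3, ha⟩, hv⟩
      refine ⟨⟨?_, ?_, ?_⟩, i1 hv⟩
      · exact List.Nodup.map_on (fun x hx y hy hxy => hψ (hSC x hx) (hSC y hy) hxy) hn
      · simpa using h3
      · intro p hp
        rw [carcs_map] at hp
        obtain ⟨q, hq, rfl⟩ := List.mem_map.1 hp
        obtain ⟨hq1, hq2⟩ := mem_carcs C q hq
        obtain ⟨z, hz1, hz2⟩ := hAC s(q.1, q.2) (List.mem_map.2 ⟨q, hq, rfl⟩)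
        have hz : q.1 ∉ A ∨ q.2 ∉ A := by
          rcases Sym2.mem_iff.1 hz1 with h5 | h5
          · left; rwa [← h5]
          · right; rwa [← h5]
        exact (h q.1 (hSC _ hq1) q.2 (hSC _ hq2) hz).2 (ha q hq)
    · intro x hx y hy hxy
      rw [List.map_cons, tot_cons, tot_cons, ← add_assoc, ← add_assoc]
      exact i2 x hx y hy hxy
    · intro x hx y hy
      rw [List.map_cons, tot_cons, tot_cons, Pi.add_apply, Pi.add_apply, i3 x hx y hy,
        ind_trans S ψ hψ C hSC x y hx hy]

theorem parcs_reverse {V : Type u} (x y : V) (Q : List V) :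
    parcs y (Q.reverse ++ [x]) = ((parcs x (Q ++ [y])).map Prod.swap).reverse := by
  induction Q generalizing x with
  | nil => rfl
  | cons a Q ih =>
    rw [List.reverse_cons, parcs_append]
    simp only [List.cons_append, parcs, List.map_cons, List.reverse_cons]
    rw [ih a]
    congr 1
    simp

theorem carcs_reverse {V : Type u} (l : List V) (p : V × V) (hp : p ∈ carcs l.reverse) :
    (p.2, p.1) ∈ carcs l := by
  cases l with
  | nil => simp [carcs] at hp
  | cons a m =>
    have h1 : (carcs (a :: m).reverse).Perm (carcs (a :: m.reverse)) := by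
      have : (a :: m).reverse = (a :: m.reverse).rotate 1 := by simp
      rw [this, carcs_rotate]
      exact List.rotate_perm _ _
    have h2 := h1.mem_iff.1 hp
    change p ∈ parcs a (m.reverse ++ [a]) at h2
    rw [parcs_reverse, List.mem_reverse, List.mem_map] at h2
    obtain ⟨q, hq, rfl⟩ := h2
    exact hq

theorem medges_reverse {V : Type u} (l : List V) (e : Sym2 V) :
    e ∈ medges l.reverse ↔ e ∈ medges l := by
  have key : ∀ m : List V, e ∈ medges m.reverse → e ∈ medges m := by
    intro m h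
    obtain ⟨p, hp, rfl⟩ := List.mem_map.1 h
    refine List.mem_map.2 ⟨(p.2, p.1), carcs_reverse m p hp, Sym2.eq_swap⟩
  refine ⟨key l, fun h => key l.reverse ?_⟩
  rwa [List.reverse_reverse]

theorem ind_reverse {V : Type u} {l : List V} (hl : l.Nodup) (h3 : 3 ≤ l.length) :
    ind l.reverse = ind l := by
  funext e
  by_cases h : e ∈ medges l
  · rw [ind_nodup hl h3 h, ind_nodup (List.nodup_reverse.2 hl) (by simpa using h3)
      ((medges_reverse l e).2 h)]
  · rw [ind_eq_zero h, ind_eq_zero (fun h' => h ((medges_reverse l e).1 h'))]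

theorem dc_reverse {V : Type u} {D : V → V → Prop} {F : Sym2 V → ZMod 2} {C : List V}
    (hC : DC D F C) : DC D (F + ind C) C.reverse := by
  obtain ⟨hn, h3, ha⟩ := hC
  refine ⟨List.nodup_reverse.2 hn, by simpa using h3, ?_⟩
  intro p hp
  have h1 := carcs_reverse C p hp
  have h2 := ha _ h1
  refine arc_flip h2 ?_
  rw [Pi.add_apply, ind_nodup hn h3 (List.mem_map.2 ⟨_, h1, rfl⟩)]

theorem add_self' {V : Type u} (f : Sym2 V → ZMod 2) : f + f = 0 := by
  funext e
  have : ∀ z : ZMod 2, z + z = 0 := by decide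
  exact this _

theorem t_UNDO : S_UNDO.{u} := by
  intro V D hT F H
  induction H generalizing F with
  | nil =>
    intro _
    refine ⟨trivial, rfl, ?_⟩
    intro C hC
    simp at hC
  | cons C H ih =>
    rintro ⟨hC, hv⟩
    obtain ⟨i1, i2, i3⟩ := ih (F + ind C) hv
    have e1 : ((C :: H).map List.reverse).reverse = (H.map List.reverse).reverse ++ [C.reverse] := by
      simp
    have hind := ind_reverse hC.1 hC.2.1
    refine ⟨?_, ?_, ?_⟩
    · rw [e1, Val_append, tot_cons, ← add_assoc, i2]
      refine ⟨i1, ?_, trivial⟩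
      have : F + ind C + tot H + tot H = F + ind C := by
        rw [add_assoc, add_self', add_zero]
      rw [this]
      exact dc_reverse hC
    · rw [e1, tot_append, tot_cons, tot_cons, i2, tot_nil, add_zero, hind, add_comm]
    · intro C' hC'
      rw [e1, List.mem_append, List.mem_singleton] at hC'
      rcases hC' with h | h
      · obtain ⟨C'', h1, h2⟩ := i3 C' h
        exact ⟨C'', List.mem_cons_of_mem _ h1, h2⟩
      · refine ⟨C, List.mem_cons_self .., ?_, ?_⟩
        · intro v
          rw [h, List.mem_reverse]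
        · intro e
          rw [h]
          exact medges_reverse C e

end Pool.Agent.Q203.CR
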